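import Pool.Agent.H440.CM.Lift

/-!
# The zeros of the product of all Hecke L-functions of several types, over a ray class field
(helper440)
-/

set_option autoImplicit false
set_option linter.unusedSectionVars false

open NumberField IsDedekindDomain Complex Filter Topology Set

namespace Pool.Agent.H440.CM

open Pool.Agent.Y773 (TPos LI)
open Pool.Agent.Y767 (Mq Cls cls eq_of_LI)
open Pool.Agent.Y773.IQ (ofM' tM LL LL_eq absNorm_pos')
open Pool.Agent.N784.HC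
open Pool.Agent.N784.CZ
open Pool.Agent.N784.AD (pi1 Un one_le_Un cls_card_le hK)
open Pool.Agent.N833.CZ (norm_ofM'_le natCast_cpow_conj)
open Pool.Agent.N786 (kc)
open H370 (zset mult NN Nd Ns)
open Pool.Agent.H82R3.EK (cnt cnt_eq_sum cnt_prod NN_eq Ns_le strip line)
open Pool.Agent.W164.RC (cnt_mul)

lemma exists_lower {N : ℕ} (f : Fin N → ℝ) (hf : ∀ j, 0 < f j) : ∃ δ : ℝ, 0 < δ ∧ ∀ j, δ ≤ f j := by
  obtain ⟨B, hB⟩ := (Set.finite_range (fun j => (f j)⁻¹)).bddAbove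
  refine ⟨(max B 1)⁻¹, by positivity, fun j => ?_⟩
  rw [inv_le_comm₀ (by positivity) (hf j)]
  exact (hB ⟨j, rfl⟩).trans (le_max_left _ _)

lemma exists_upper {N : ℕ} (f : Fin N → ℝ) : ∃ X : ℝ, 1 ≤ X ∧ ∀ j, f j ≤ X := by
  obtain ⟨B, hB⟩ := (Set.finite_range f).bddAbove
  exact ⟨max B 1, le_max_right _ _, fun j => (hB ⟨j, rfl⟩).trans (le_max_left _ _)⟩

/-- **the zeros of the product over all the characters of several types** -/
theorem core (M : Type) [Field M] [NumberField M] {N : ℕ} (n : Fin N → (M →+* ℂ) → ℕ)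
    (hn : ∀ j, CTyp (n j)) (hn0 : ∀ j, n j ≠ 0)
    {a e a₂ : ℝ} (ha1 : a < 1) (he : 0 < e)
    (hk : kc 1.414 (1 - a) + e ≤ 1.3275) (h2a : a₂ ≤ a) (h23 : a₂ ≤ 1 / 3)
    (ε η : ℝ) (hε : 0 < ε) (hη : 0 < η) : ∃ δ X₀ : ℝ, 0 < δ ∧
    ∀ (𝔮 : Ideal (𝓞 M)), 𝔮 ≠ ⊥ → ∀ htop : 𝔮 ≠ ⊤, X₀ ≤ (Ideal.absNorm 𝔮 : ℝ) →
      (Un 𝔮 : ℝ) ≤ (Ideal.absNorm 𝔮 : ℝ) ^ δ →
    ∀ F₁ : Fin N → (Mq 𝔮 →* ℂˣ), (∀ j, F₁ j ∈ Dn (n j) htop) →
    ∀ (K : Type) [Field K] [NumberField K] (ι : 𝓞 M →+* 𝓞 K)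
      (art : Ideal (𝓞 M) → (𝓞 K ≃+* 𝓞 K)), IsRCF 𝔮 K ι art →
      (∀ (v : HeightOneSpectrum (𝓞 K)) (x : ℂ),
        (starRingEnd ℂ) (∏ j, (1 - ev ι htop (F₁ j) v * x)) =
          ∏ j, (1 - ev ι htop (F₁ j) v * (starRingEnd ℂ) x)) →
    ∃ G : ℂ → ℂ, Differentiable ℂ G ∧
      (∀ s : ℂ, 1 < s.re → HasProd (fun v : HeightOneSpectrum (𝓞 K) =>
        ∏ j, (1 - ev ι htop (F₁ j) v * ((Ideal.absNorm v.asIdeal : ℕ) : ℂ) ^ (-s))⁻¹) (G s)) ∧
      (∀ s : ℂ, 1 ≤ s.re → G s ≠ 0) ∧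
      ∀ T : ℝ, (Ideal.absNorm 𝔮 : ℝ) ^ η ≤ T →
        ((Ideal.absNorm 𝔮 : ℝ) * T ^ Module.finrank ℚ M) ^ (1 - a₂) ≤ (Ideal.absNorm 𝔮 : ℝ) →
        (1 - ε) * (N * (Nat.card (Cls (pi1 htop)) * (T / (2 * Real.pi) *
          Real.log ((Ideal.absNorm 𝔮 : ℝ) * T ^ Module.finrank ℚ M)))) ≤
            (cnt G (strip T (2 * T)) : ℝ) ∧
        0.6725 * (cnt G (strip T (2 * T)) : ℝ) ≤ (cnt G (line T (2 * T)) : ℝ) := by
  classical
  have H0 : ∀ j, ∃ δ X₀ : ℝ, 0 < δ ∧ _ := fun j => prod_core Pool.Agent.N603.CZ.t_gro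
    Pool.Agent.N768.CZ.t_cru M (hn j) (hn0 j) ha1 he hk h2a h23 ε η hε hη
  choose δj Xj hδj H using H0
  obtain ⟨δ, hδ0, hδ⟩ := exists_lower δj hδj
  obtain ⟨X₀, hX1, hX₀⟩ := exists_upper Xj
  refine ⟨δ, X₀, hδ0, ?_⟩
  intro 𝔮 hbot htop hX hU F₁ hF₁ K _ _ ι art hK hreal
  have hN1 : (1 : ℝ) ≤ (Ideal.absNorm 𝔮 : ℝ) := hX1.trans hX
  have hfin : ∀ j, (Dn (n j) htop).Finite := fun j => (Dn_card_le (n := n j) hbot htop).1
  have hex : ∀ (j : Fin N) (F : Mq 𝔮 →* ℂˣ), ∃ L : ℂ → ℂ, F ∈ Dn (n j) htop →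
      (Differentiable ℂ L ∧ ∀ s : ℂ, 1 < s.re → L s = LI (ofM' htop F) s) := by
    intro j F
    by_cases h : F ∈ Dn (n j) htop
    · obtain ⟨L, h1, h2⟩ := ent_of (hn j) (hn0 j) hbot htop h
      exact ⟨L, fun _ => ⟨h1, h2⟩⟩
    · exact ⟨fun _ => 0, fun h' => absurd h' h⟩
  choose L hL using hex
  obtain ⟨J, hJ⟩ : ∃ J : Fin N → Finset (Mq 𝔮 →* ℂˣ), J = fun j => (hfin j).toFinset := ⟨_, rfl⟩
  have hJm : ∀ j F, F ∈ J j ↔ F ∈ Dn (n j) htop := fun j F => by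
    rw [hJ, Set.Finite.mem_toFinset]
  -- the functions for the single types
  obtain ⟨P, hP⟩ : ∃ P : Fin N → ℂ → ℂ, P = fun j s => ∏ F ∈ J j, L j F s := ⟨_, rfl⟩
  have hPd : ∀ j, Differentiable ℂ (P j) := by
    intro j
    rw [hP]
    exact Differentiable.fun_finsetProd fun F hF => (hL j F ((hJm j F).mp hF)).1
  have hPne : ∀ j (s : ℂ), 1 ≤ s.re → P j s ≠ 0 := by
    intro j s hs
    rw [hP]
    simp only
    rw [Finset.prod_ne_zero_iff]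
    intro F hF
    have hF' := (hJm j F).mp hF
    exact nv_Dn (hn j) (hn0 j) hbot htop hF' (hL j F hF').1 (hL j F hF').2 hs
  have hPprod : ∀ j (s : ℂ), 1 < s.re → HasProd (fun v : HeightOneSpectrum (𝓞 K) =>
      (1 - ev ι htop (F₁ j) v * ((Ideal.absNorm v.asIdeal : ℕ) : ℂ) ^ (-s))⁻¹) (P j s) := by
    intro j s hs
    have h1 := glue1 ι hbot htop art hK (hF₁ j) hs
    have h2 : P j s = ∏ᶠ F ∈ Dn (n j) htop, LI (ofM' htop F) s := by
      rw [finprod_mem_eq_finite_toFinset_prod _ (hfin j), hP, hJ]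
      refine Finset.prod_congr rfl fun F hF => ?_
      exact (hL j F ((hfin j).mem_toFinset.mp hF)).2 s hs
    rw [h2]
    exact h1
  obtain ⟨G, hG⟩ : ∃ G : ℂ → ℂ, G = fun s => ∏ j, P j s := ⟨_, rfl⟩
  have hGd : Differentiable ℂ G := by
    rw [hG]
    exact Differentiable.fun_finsetProd fun j _ => hPd j
  have hGne : ∀ s : ℂ, 1 ≤ s.re → G s ≠ 0 := by
    intro s hs
    rw [hG]
    simp only
    rw [Finset.prod_ne_zero_iff]
    exact fun j _ => hPne j s hs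
  have hGprod : ∀ s : ℂ, 1 < s.re → HasProd (fun v : HeightOneSpectrum (𝓞 K) =>
      ∏ j, (1 - ev ι htop (F₁ j) v * ((Ideal.absNorm v.asIdeal : ℕ) : ℂ) ^ (-s))⁻¹) (G s) := by
    intro s hs
    rw [hG]
    exact hasProd_prod fun j _ => hPprod j s hs
  -- the product is real
  have hGr : cf G = G := by
    refine eq_of_LI (cf_diff hGd) hGd fun s hs => ?_
    have hs' : 1 < ((starRingEnd ℂ) s).re := by rw [Complex.conj_re]; exact hs
    have h1 := (hGprod _ hs').map (starRingEnd ℂ) Complex.continuous_conj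
    have h2 := hGprod s hs
    refine HasProd.unique (f := fun v : HeightOneSpectrum (𝓞 K) =>
      ∏ j, (1 - ev ι htop (F₁ j) v * ((Ideal.absNorm v.asIdeal : ℕ) : ℂ) ^ (-s))⁻¹) ?_ h2
    unfold cf
    refine h1.congr_fun fun v => ?_
    simp only [Function.comp_apply, Finset.prod_inv_distrib, map_inv₀]
    rw [hreal, natCast_cpow_conj, map_neg, Complex.conj_conj]
  refine ⟨G, hGd, hGprod, hGne, ?_⟩
  intro T hT hTh
  -- the products with the conjugates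
  obtain ⟨Q, hQ⟩ : ∃ Q : Fin N → ℂ → ℂ, Q = fun j s => ∏ F ∈ J j, (L j F s * cf (L j F) s) :=
    ⟨_, rfl⟩
  have hQP : ∀ j s, Q j s = P j s * cf (P j) s := by
    intro j s
    rw [hQ, hP]
    simp only
    rw [Finset.prod_mul_distrib]
    congr 1
    unfold cf
    rw [map_prod]
  have hcfd : ∀ j, Differentiable ℂ (cf (P j)) := fun j => cf_diff (hPd j)
  have hQd : ∀ j, Differentiable ℂ (Q j) := by
    intro j
    have : Q j = fun s => P j s * cf (P j) s := funext (hQP j)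
    rw [this]
    exact (hPd j).mul (hcfd j)
  have hQne : ∀ j, Q j 2 ≠ 0 := by
    intro j
    rw [hQP]
    refine mul_ne_zero (hPne j _ (by norm_num)) ?_
    unfold cf
    rw [map_ne_zero]
    exact hPne j _ (by norm_num)
  have hGG : (fun s => G s * G s) = fun s => ∏ j, Q j s := by
    funext s
    have h1 : G s * cf G s = ∏ j, Q j s := by
      simp_rw [hQP]
      rw [Finset.prod_mul_distrib, hG]
      simp only
      congr 1
      unfold cf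
      rw [map_prod]
    rw [hGr] at h1
    exact h1
  have key : ∀ W : Set ℂ, (∀ s ∈ W, ‖s‖ ≤ 1 + (|T| + |2 * T|)) →
      2 * cnt G W = ∑ j, cnt (Q j) W := by
    intro W hW
    have h2 : G 2 ≠ 0 := hGne 2 (by norm_num)
    have h1 : cnt (fun s => G s * G s) W = cnt G W + cnt G W :=
      cnt_mul (fun s _ => hGd.analyticAt s) (fun s _ => hGd.analyticAt s)
        (fun s _ => order_ne_top hGd h2 s) (fun s _ => order_ne_top hGd h2 s)
        (zeros_bdd hGd h2 hW) (zeros_bdd hGd h2 hW)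
    rw [hGG, cnt_prod Finset.univ Q (fun j _ s _ => (hQd j).analyticAt s)
      (fun j _ s _ => order_ne_top (hQd j) (hQne j) s)
      (fun j _ => zeros_bdd (hQd j) (hQne j) hW)] at h1
    omega
  have hmain : ∀ j, (1 - ε) * (Nat.card (Cls (pi1 htop)) * (T / Real.pi *
          Real.log ((Ideal.absNorm 𝔮 : ℝ) * T ^ Module.finrank ℚ M))) ≤
          (cnt (Q j) (strip T (2 * T)) : ℝ) ∧
        0.6725 * (cnt (Q j) (strip T (2 * T)) : ℝ) ≤ (cnt (Q j) (line T (2 * T)) : ℝ) := by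
    intro j
    have h1 : (Un 𝔮 : ℝ) ≤ (Ideal.absNorm 𝔮 : ℝ) ^ (δj j) :=
      hU.trans (Real.rpow_le_rpow_of_exponent_le hN1 (hδ j))
    obtain ⟨-, c1, c2⟩ := H j 𝔮 hbot htop ((hX₀ j).trans hX) ⟨F₁ j, hF₁ j⟩ h1 (L j) (hL j) (J j)
      (hJm j) T hT hTh
    rw [hQ]
    exact ⟨c1, c2⟩
  have hs1 : ∀ s ∈ strip T (2 * T), ‖s‖ ≤ 1 + (|T| + |2 * T|) := strip_bdd
  have hs2 : ∀ s ∈ line T (2 * T), ‖s‖ ≤ 1 + (|T| + |2 * T|) := by
    rintro s ⟨h1, h2, h3⟩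
    exact strip_bdd s ⟨by rw [h1]; norm_num, by rw [h1]; norm_num, h2, h3⟩
  have k1 : 2 * (cnt G (strip T (2 * T)) : ℝ) = ∑ j, (cnt (Q j) (strip T (2 * T)) : ℝ) := by
    exact_mod_cast key _ hs1
  have k2 : 2 * (cnt G (line T (2 * T)) : ℝ) = ∑ j, (cnt (Q j) (line T (2 * T)) : ℝ) := by
    exact_mod_cast key _ hs2
  constructor
  · have h1 : ∑ j : Fin N, (1 - ε) * (Nat.card (Cls (pi1 htop)) * (T / Real.pi *
          Real.log ((Ideal.absNorm 𝔮 : ℝ) * T ^ Module.finrank ℚ M))) ≤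
          ∑ j, (cnt (Q j) (strip T (2 * T)) : ℝ) := Finset.sum_le_sum fun j _ => (hmain j).1
    rw [Finset.sum_const, Finset.card_univ, Fintype.card_fin, nsmul_eq_mul, ← k1] at h1
    have h2 : (N : ℝ) * ((1 - ε) * (Nat.card (Cls (pi1 htop)) * (T / Real.pi *
          Real.log ((Ideal.absNorm 𝔮 : ℝ) * T ^ Module.finrank ℚ M)))) =
        2 * ((1 - ε) * (N * (Nat.card (Cls (pi1 htop)) * (T / (2 * Real.pi) *
          Real.log ((Ideal.absNorm 𝔮 : ℝ) * T ^ Module.finrank ℚ M))))) := by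
      field_simp
    rw [h2] at h1
    linarith
  · have h1 : ∑ j, 0.6725 * (cnt (Q j) (strip T (2 * T)) : ℝ) ≤
        ∑ j, (cnt (Q j) (line T (2 * T)) : ℝ) := Finset.sum_le_sum fun j _ => (hmain j).2
    rw [← Finset.mul_sum, ← k1, ← k2] at h1
    linarith

end Pool.Agent.H440.CM
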