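import Pool.Graph.R_pool_sql_team_seeded_63374d34.N784.CZ.Crx
import Pool.Graph.R_seed8.W353.PV.Eig

/-!
# The Euler product over a ray class field of all the Hecke characters of a given type (helper440)
-/

set_option autoImplicit false
set_option linter.unusedSectionVars false

open NumberField IsDedekindDomain Complex

namespace Pool.Agent.H440.CM

open Pool.Agent.Y773 (TPos LI zz norm_zz_lt hasSum_log natCast_pow_cpow)
open Pool.Agent.Y767 (Mq Mq_cop Mq_cancel Cls cls cls_eq_one)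
open Pool.Agent.Y773.IQ (ofM' ofM'_pos ofM'_supp)
open Pool.Agent.N784.AD (T1 T1_cop pi1 cls_card_le)
open Pool.Agent.N784.HC (Dn Dn_card phT phT_coe ph norm_ph)
open Pool.Agent.N784.CZ (IsRCF StSplit StLocal)
open Pool.Agent.H921R2.TatePole (nm nm_eq nm_summable two_le_nm)
open Pool.Agent.N833.CZ (norm_Dn norm_ofM'_le hasProd_M bM bM_iff)

section
variable {M : Type} [Field M] [NumberField M] {𝔮 : Ideal (𝓞 M)}
  {K : Type} [Field K] [NumberField K] (ι : 𝓞 M →+* 𝓞 K)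

open Classical in
/-- the value at a place of the ray class field, the power of the value at the prime below -/
noncomputable def ev (htop : 𝔮 ≠ ⊤) (F : Mq 𝔮 →* ℂˣ) (v : HeightOneSpectrum (𝓞 K)) : ℂ :=
  if hc : IsCoprime (bM ι v).1 𝔮 then
    ((F ⟨(bM ι v).1, hc⟩ : ℂˣ) : ℂ) ^ orderOf (cls (pi1 htop) ⟨(bM ι v).1, hc⟩)
  else 0

lemma cop_iff (v : HeightOneSpectrum (𝓞 K)) :
    IsCoprime (bM ι v).1 𝔮 ↔ ¬ 𝔮.map ι ≤ v.asIdeal := by
  have hpr : (bM ι v).1.IsPrime := Ideal.isPrime_of_prime (bM ι v).2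
  have hmax : (bM ι v).1.IsMaximal := hpr.isMaximal (bM ι v).2.ne_zero
  rw [Ideal.map_le_iff_le_comap]
  change IsCoprime (bM ι v).1 𝔮 ↔ ¬ 𝔮 ≤ (bM ι v).1
  rw [Ideal.isCoprime_iff_sup_eq]
  constructor
  · intro h h2
    rw [sup_eq_left.2 h2] at h
    exact hpr.ne_top h
  · intro h
    by_contra h5
    apply h
    rw [hmax.eq_of_le h5 le_sup_left]
    exact le_sup_right

/-- **the product over the places of the ray class field** -/
theorem glue1 {n : (M →+* ℂ) → ℕ} (hbot : 𝔮 ≠ ⊥) (htop : 𝔮 ≠ ⊤)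
    (art : Ideal (𝓞 M) → (𝓞 K ≃+* 𝓞 K)) (H : IsRCF 𝔮 K ι art) {F₁ : Mq 𝔮 →* ℂˣ}
    (hF₁ : F₁ ∈ Dn n htop) {s : ℂ} (hs : 1 < s.re) :
    HasProd (fun v : HeightOneSpectrum (𝓞 K) =>
      (1 - ev ι htop F₁ v * ((Ideal.absNorm v.asIdeal : ℕ) : ℂ) ^ (-s))⁻¹)
      (∏ᶠ F ∈ Dn n htop, LI (ofM' htop F) s) := by
  classical
  have hfin : (Dn n htop).Finite := (Dn_card hbot htop hF₁).1
  have hcfin := (cls_card_le hbot htop).1
  have hP : HasProd (fun 𝔭 : {𝔭 : Ideal (𝓞 M) // Prime 𝔭} => ∏ᶠ F ∈ Dn n htop,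
      (1 - zz (ofM' htop F) s 𝔭)⁻¹) (∏ᶠ F ∈ Dn n htop, LI (ofM' htop F) s) := by
    simp_rw [finprod_mem_eq_finite_toFinset_prod _ hfin]
    apply hasProd_prod
    intro F hF
    rw [Set.Finite.mem_toFinset] at hF
    exact hasProd_M (norm_ofM'_le hbot htop hF) hs
  -- the absolute values
  have hevn : ∀ v : HeightOneSpectrum (𝓞 K), ‖ev ι htop F₁ v‖ ≤ 1 := by
    intro v
    unfold ev
    split_ifs with h
    · rw [norm_pow, norm_Dn hbot htop hF₁, one_pow]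
    · rw [norm_zero]
      exact zero_le_one
  -- the local identity
  have hloc : ∀ 𝔭 : {𝔭 : Ideal (𝓞 M) // Prime 𝔭},
      HasProd (fun v : {v : HeightOneSpectrum (𝓞 K) // bM ι v = 𝔭} =>
        (1 - ev ι htop F₁ v.1 * ((Ideal.absNorm v.1.asIdeal : ℕ) : ℂ) ^ (-s))⁻¹)
      (∏ᶠ F ∈ Dn n htop, (1 - zz (ofM' htop F) s 𝔭)⁻¹) := by
    intro 𝔭
    have hpr : 𝔭.1.IsPrime := Ideal.isPrime_of_prime 𝔭.2
    by_cases hc : IsCoprime 𝔭.1 𝔮
    · obtain ⟨hN, hcard⟩ := Pool.Agent.N400.CZ.t_split M 𝔮 hbot htop K ι art H 𝔭.1 hpr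
        𝔭.2.ne_zero hc
      set f := orderOf (cls (pi1 htop) ⟨𝔭.1, hc⟩) with hf
      have hf0 : 0 < f := orderOf_pos _
      have hcl0 : 0 < Nat.card (Cls (pi1 htop)) := Nat.card_pos
      have hv0 : Nat.card {v : HeightOneSpectrum (𝓞 K) // 𝔭.1.map ι ≤ v.asIdeal} ≠ 0 := by
        intro h0
        rw [h0, zero_mul] at hcard
        omega
      have hval : ∀ v : {v : HeightOneSpectrum (𝓞 K) // bM ι v = 𝔭},
          (1 - ev ι htop F₁ v.1 * ((Ideal.absNorm v.1.asIdeal : ℕ) : ℂ) ^ (-s))⁻¹ =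
          (1 - (((F₁ ⟨𝔭.1, hc⟩ : ℂˣ) : ℂ) * ((Ideal.absNorm 𝔭.1 : ℕ) : ℂ) ^ (-s)) ^ f)⁻¹ := by
        rintro ⟨v, hv⟩
        have h5 := (bM_iff v 𝔭).1 hv
        subst hv
        have h4 : ev ι htop F₁ v = ((F₁ ⟨(bM ι v).1, hc⟩ : ℂˣ) : ℂ) ^ f := by
          unfold ev
          rw [dif_pos hc]
        simp only
        rw [h4, hN v h5, natCast_pow_cpow, mul_pow]
      have hcard' : Nat.card {v : HeightOneSpectrum (𝓞 K) // bM ι v = 𝔭} =
          Nat.card (Cls (pi1 htop)) / f := by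
        have h4 : Nat.card {v : HeightOneSpectrum (𝓞 K) // bM ι v = 𝔭} =
            Nat.card {v : HeightOneSpectrum (𝓞 K) // 𝔭.1.map ι ≤ v.asIdeal} :=
          Nat.card_congr (Equiv.subtypeEquivRight fun v => bM_iff v 𝔭)
        rw [h4, ← hcard, Nat.mul_div_cancel _ hf0]
      have hfinv : Finite {v : HeightOneSpectrum (𝓞 K) // bM ι v = 𝔭} := by
        have : Finite {v : HeightOneSpectrum (𝓞 K) // 𝔭.1.map ι ≤ v.asIdeal} :=
          Nat.finite_of_card_ne_zero hv0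
        exact Finite.of_equiv _ (Equiv.subtypeEquivRight fun v => bM_iff v 𝔭).symm
      have hft := Fintype.ofFinite {v : HeightOneSpectrum (𝓞 K) // bM ι v = 𝔭}
      have hprod := hasProd_fintype (fun v : {v : HeightOneSpectrum (𝓞 K) // bM ι v = 𝔭} =>
        (1 - ev ι htop F₁ v.1 * ((Ideal.absNorm v.1.asIdeal : ℕ) : ℂ) ^ (-s))⁻¹)
      have hval2 : (∏ v : {v : HeightOneSpectrum (𝓞 K) // bM ι v = 𝔭},
          (1 - ev ι htop F₁ v.1 * ((Ideal.absNorm v.1.asIdeal : ℕ) : ℂ) ^ (-s))⁻¹) =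
          ((1 - (((F₁ ⟨𝔭.1, hc⟩ : ℂˣ) : ℂ) * ((Ideal.absNorm 𝔭.1 : ℕ) : ℂ) ^ (-s)) ^ f)⁻¹) ^
            (Nat.card (Cls (pi1 htop)) / f) := by
        rw [Finset.prod_congr rfl (fun v _ => hval v), Finset.prod_const, Finset.card_univ,
          ← Nat.card_eq_fintype_card, hcard']
      rw [hval2] at hprod
      have hnorm : ‖((Ideal.absNorm 𝔭.1 : ℕ) : ℂ) ^ (-s)‖ < 1 := by
        have h4 := norm_zz_lt (ψ := ofM' htop F₁) (norm_ofM'_le hbot htop hF₁)
          (s := s) hs 𝔭.2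
        unfold zz at h4
        rw [norm_mul, ofM'_pos htop F₁ hc, norm_Dn hbot htop hF₁, one_mul] at h4
        exact h4
      have h4 := Pool.Agent.N717.CZ.t_local M n 𝔮 hbot htop F₁ hF₁ ⟨𝔭.1, hc⟩
        (((Ideal.absNorm 𝔭.1 : ℕ) : ℂ) ^ (-s)) hnorm
      rw [← hf, finprod_mem_eq_finite_toFinset_prod _ hfin] at h4
      have hD : (∏ᶠ F ∈ Dn n htop, (1 - zz (ofM' htop F) s 𝔭)⁻¹) =
          ((1 - (((F₁ ⟨𝔭.1, hc⟩ : ℂˣ) : ℂ) * ((Ideal.absNorm 𝔭.1 : ℕ) : ℂ) ^ (-s)) ^ f)⁻¹) ^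
            (Nat.card (Cls (pi1 htop)) / f) := by
        rw [finprod_mem_eq_finite_toFinset_prod _ hfin, Finset.prod_inv_distrib, inv_pow, ← h4]
        congr 1
        refine Finset.prod_congr rfl fun F hF => ?_
        unfold zz
        rw [ofM'_pos htop F hc]
      rw [hD]
      exact hprod
    · have h4 : ∀ v : {v : HeightOneSpectrum (𝓞 K) // bM ι v = 𝔭},
          (1 - ev ι htop F₁ v.1 * ((Ideal.absNorm v.1.asIdeal : ℕ) : ℂ) ^ (-s))⁻¹ = 1 := by
        rintro ⟨v, hv⟩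
        subst hv
        unfold ev
        simp only
        rw [dif_neg hc, zero_mul, sub_zero, inv_one]
      have h5 : ∏ᶠ F ∈ Dn n htop, (1 - zz (ofM' htop F) s 𝔭)⁻¹ = 1 := by
        apply finprod_mem_eq_one_of_forall_eq_one
        intro F hF
        have h6 : ofM' htop F 𝔭.1 = 0 := by
          by_contra h7
          exact hc ((ofM'_supp htop F 𝔭.1).1 h7)
        unfold zz
        rw [h6, zero_mul, sub_zero, inv_one]
      rw [h5]
      simp_rw [h4]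
      exact hasProd_one
  -- multipliability
  have h4 : Multipliable (fun v : HeightOneSpectrum (𝓞 K) =>
      (1 - ev ι htop F₁ v * ((Ideal.absNorm v.asIdeal : ℕ) : ℂ) ^ (-s))⁻¹) := by
    have hsum := nm_summable (K := K) (x := s.re) hs
    have hn : ∀ v : HeightOneSpectrum (𝓞 K),
        ‖ev ι htop F₁ v * ((Ideal.absNorm v.asIdeal : ℕ) : ℂ) ^ (-s)‖ ≤
          ((nm v : ℕ) : ℝ) ^ (-s.re) := by
      intro v
      have h0 : 0 < Ideal.absNorm v.asIdeal := lt_of_lt_of_le two_pos (two_le_nm v)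
      rw [norm_mul, Complex.norm_natCast_cpow_of_pos h0, Complex.neg_re]
      have h1 : 0 ≤ ((Ideal.absNorm v.asIdeal : ℕ) : ℝ) ^ (-s.re) :=
        Real.rpow_nonneg (Nat.cast_nonneg _) _
      calc ‖ev ι htop F₁ v‖ * ((Ideal.absNorm v.asIdeal : ℕ) : ℝ) ^ (-s.re)
          ≤ 1 * ((Ideal.absNorm v.asIdeal : ℕ) : ℝ) ^ (-s.re) :=
            mul_le_mul_of_nonneg_right (hevn v) h1
        _ = _ := one_mul _
    have h5 : Summable (fun v : HeightOneSpectrum (𝓞 K) =>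
        ‖(1 - ev ι htop F₁ v * ((Ideal.absNorm v.asIdeal : ℕ) : ℂ) ^ (-s))⁻¹ - 1‖) := by
      refine Summable.of_norm_bounded_eventually (hsum.mul_left 2) ?_
      have h6 := hsum.tendsto_cofinite_zero.eventually
        (Iio_mem_nhds (by norm_num : (0 : ℝ) < 1 / 2))
      filter_upwards [h6] with v hv
      rw [norm_norm]
      set z := ev ι htop F₁ v * ((Ideal.absNorm v.asIdeal : ℕ) : ℂ) ^ (-s) with hz
      have h7 : ‖z‖ ≤ ((nm v : ℕ) : ℝ) ^ (-s.re) := hn v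
      have h8 : ‖z‖ < 1 / 2 := lt_of_le_of_lt h7 hv
      have h9 : 1 / 2 ≤ ‖1 - z‖ := by
        have := norm_sub_norm_le (1 : ℂ) z
        rw [norm_one] at this
        linarith
      have h10 : (1 - z) ≠ 0 := by
        intro h0
        rw [h0, norm_zero] at h9
        linarith
      have h11 : (1 - z)⁻¹ - 1 = z * (1 - z)⁻¹ := by
        field_simp
        ring
      rw [h11, norm_mul, norm_inv]
      have h12 : ‖1 - z‖⁻¹ ≤ 2 := by
        rw [inv_le_comm₀ (by linarith) two_pos]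
        linarith
      calc ‖z‖ * ‖1 - z‖⁻¹ ≤ ((nm v : ℕ) : ℝ) ^ (-s.re) * 2 :=
            mul_le_mul h7 h12 (by positivity) ((norm_nonneg _).trans h7)
        _ = 2 * ((nm v : ℕ) : ℝ) ^ (-s.re) := mul_comm _ _
    have h7 := multipliable_one_add_of_summable h5
    refine h7.congr (fun v => ?_)
    ring
  rw [← (Equiv.sigmaFiberEquiv (bM ι)).hasProd_iff]
  refine HasProd.sigma_of_hasProd hP (fun 𝔭 => hloc 𝔭) ?_
  exact (Equiv.sigmaFiberEquiv (bM ι)).multipliable_iff.2 h4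

end

end Pool.Agent.H440.CM
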