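import Pool.Agent.H440.CM.Glue

/-!
# Frobenius eigenvalues over an extension field (helper440)
-/

set_option autoImplicit false
set_option linter.unusedSectionVars false

open NumberField IsDedekindDomain Complex ComplexConjugate

namespace Pool.Agent.H440.CM

open Pool.Agent.W353.PV (cone exists_ext mult_unique one_lt_norm)

section
variable {M : Type} [Field M] [NumberField M] {K : Type} [Field K] [NumberField K] [Algebra M K]
  {l d i : ℕ} {X : Set (MvPolynomial (Fin l) (𝓞 M))}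

/-- the eigenvalues of the Frobenius at `v` on `H^i(X)` are the elements of `A` -/
def Fro (X : Set (MvPolynomial (Fin l) (𝓞 M))) (d i : ℕ) (v : HeightOneSpectrum (𝓞 K))
    (A : Multiset ℂ) : Prop :=
  ∃ β : ℕ → Multiset ℂ, β i = A ∧
    (∀ k, ∀ z ∈ β k, ‖z‖ = (Ideal.absNorm v.asIdeal : ℝ) ^ ((k : ℝ) / 2)) ∧
    ∀ (κ : Type) [Field κ] [Finite κ] (φ : 𝓞 K →+* κ) (e : ℕ), RingHom.ker φ = v.asIdeal →
      Nat.card κ = Ideal.absNorm v.asIdeal ^ e →
      (cone X (φ.comp (algebraMap (𝓞 M) (𝓞 K))) : ℂ) =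
        ((Ideal.absNorm v.asIdeal : ℂ) ^ e - 1) *
          ∑ k ∈ Finset.range (2 * d + 1), (-1 : ℂ) ^ k * ((β k).map (fun z => z ^ e)).sum

/-- the eigenvalues at a place of `K` are the powers of those at the place of `M` below -/
theorem fro_lift {v : HeightOneSpectrum (𝓞 K)} {u : HeightOneSpectrum (𝓞 M)} {f : ℕ}
    (hu : u.asIdeal = v.asIdeal.comap (algebraMap (𝓞 M) (𝓞 K)))
    (hN : Ideal.absNorm v.asIdeal = Ideal.absNorm u.asIdeal ^ f) {A : Multiset ℂ}
    (h : Fro (K := M) X d i u A) : Fro X d i v (A.map fun z => z ^ f) := by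
  obtain ⟨β, h1, h2, h3⟩ := h
  refine ⟨fun k => (β k).map (fun z => z ^ f), ?_, ?_, ?_⟩
  · simp only [h1]
  · intro k z hz
    obtain ⟨y, hy, rfl⟩ := Multiset.mem_map.1 hz
    rw [norm_pow, h2 k y hy, hN, Nat.cast_pow, ← Real.rpow_natCast, ← Real.rpow_natCast,
      ← Real.rpow_mul (Nat.cast_nonneg _), ← Real.rpow_mul (Nat.cast_nonneg _), mul_comm]
  · intro κ _ _ φ e hk hc
    have e1 := h3 κ (φ.comp (algebraMap (𝓞 M) (𝓞 K))) (f * e) (by
      rw [← RingHom.comap_ker, hk, hu]) (by rw [hc, hN, ← pow_mul])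
    have e2 : (cone X (φ.comp (algebraMap (𝓞 M) (𝓞 K))) : ℂ) =
        ((Ideal.absNorm u.asIdeal : ℂ) ^ (f * e) - 1) * ∑ k ∈ Finset.range (2 * d + 1),
          (-1 : ℂ) ^ k * ((β k).map (fun z => z ^ (f * e))).sum :=
      Eq.trans (congrArg (Nat.cast : ℕ → ℂ) (congrArg (cone X) (RingHom.ext fun x => rfl))) e1
    rw [e2, hN]
    push_cast
    rw [← pow_mul]
    congr 1
    refine Finset.sum_congr rfl fun k _ => ?_
    congr 2
    rw [Multiset.map_map]
    refine Multiset.map_congr rfl fun z _ => ?_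
    rw [Function.comp_apply, ← pow_mul]

/-- the eigenvalues are unique -/
theorem fro_unique (hi : i ≤ 2 * d) {v : HeightOneSpectrum (𝓞 K)} {A A' : Multiset ℂ}
    (h : Fro X d i v A) (h' : Fro X d i v A') : A = A' := by
  obtain ⟨β, h1, h2, h3⟩ := h
  obtain ⟨β', h1', h2', h3'⟩ := h'
  rw [← h1, ← h1']
  refine mult_unique (D := 2 * d + 1) (one_lt_norm v) h2 h2' (fun e he => ?_) (by omega)
  obtain ⟨κ, _, _, φ, hk, hc⟩ := exists_ext v e he
  have e1 := h3 κ φ e hk hc
  rw [h3' κ φ e hk hc] at e1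
  refine (mul_left_cancel₀ ?_ e1).symm
  have h4 : (1 : ℝ) < (Ideal.absNorm v.asIdeal : ℝ) ^ e := one_lt_pow₀ (one_lt_norm v) (by omega)
  intro h5
  have h6 : ((Ideal.absNorm v.asIdeal : ℂ) ^ e) = 1 := sub_eq_zero.1 h5
  have h7 : ((Ideal.absNorm v.asIdeal : ℝ) ^ e) = 1 := by exact_mod_cast h6
  linarith

/-- the complex conjugates of the eigenvalues are eigenvalues -/
theorem fro_conj {v : HeightOneSpectrum (𝓞 K)} {A : Multiset ℂ} (h : Fro X d i v A) :
    Fro X d i v (A.map conj) := by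
  obtain ⟨β, h1, h2, h3⟩ := h
  refine ⟨fun k => (β k).map conj, ?_, ?_, ?_⟩
  · simp only [h1]
  · intro k z hz
    obtain ⟨y, hy, rfl⟩ := Multiset.mem_map.1 hz
    rw [Complex.norm_conj]
    exact h2 k y hy
  · intro κ _ _ φ e hk hc
    have e1 := congrArg conj (h3 κ φ e hk hc)
    rw [Complex.conj_natCast] at e1
    rw [e1, map_mul, map_sub, map_pow, map_one, Complex.conj_natCast, map_sum]
    congr 1
    refine Finset.sum_congr rfl fun k _ => ?_
    rw [map_mul, map_pow, map_neg, map_one, map_multiset_sum, Multiset.map_map, Multiset.map_map]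
    congr 3
    funext z
    simp

end

section
variable {M : Type} [Field M] [NumberField M] {𝔮 : Ideal (𝓞 M)}

open Pool.Agent.Y767 (Mq Cls cls cls_eq_one)
open Pool.Agent.N784.AD (pi1)
open Pool.Agent.N784.HC (Dn phT phT_coe ph_zero_type)

/-- the values of a ray class character at the powers in the kernel of the class map are one -/
lemma pow_order_one {htop : 𝔮 ≠ ⊤} {F : Mq 𝔮 →* ℂˣ} (hF : F ∈ Dn 0 htop) (x : Mq 𝔮) :
    ((F x : ℂˣ) : ℂ) ^ orderOf (cls (pi1 htop) x) = 1 := by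
  have hcan := Pool.Agent.Y767.Mq_cancel htop
  have h1 : cls (pi1 htop) (x ^ orderOf (cls (pi1 htop) x)) = 1 := by
    rw [map_pow, pow_orderOf_eq_one]
  obtain ⟨a, b, hab⟩ := cls_eq_one h1
  have h2 : ∀ a, ((F (pi1 htop a) : ℂˣ) : ℂ) = 1 := by
    intro a
    rw [hF a, phT_coe, ph_zero_type]
  have h3 := congrArg (fun y => ((F y : ℂˣ) : ℂ)) hab
  simp only [map_mul, map_pow, Units.val_mul, Units.val_pow_eq_pow_val] at h3
  rw [h2, h2] at h3
  simpa using h3

end

end Pool.Agent.H440.CM
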